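import Mathlib
import Pool.Agent.Q217.MZ.PrefixFin

/-!
# MP_03df5c_nt: real and `p`-adic multiple zeta values with constant arguments in front

A pattern is a list of letters `(a, b)`; its index at `n` has the arguments `a n + b`. The constant weight of a pattern is
the sum of the constant arguments in front of the first growing argument. Let `w_1, ..., w_k` be admissible patterns; the
first arguments may be constant, such as in `ζ(2, n)`, `ζ(3, n, 5)`, `ζ(2, 1, n + 1)`, and constant patterns such as `ζ(3)`
are allowed. If an integer polynomial `f` of bounded degree with coefficients at most `C ^ n`, whose monomials have constant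
weight at most three, vanishes or is very small at the real multiple zeta values of the indices `w_i(n)`, `n` large, then
`f` vanishes at `Z(w_1(n')), ..., Z(w_k(n'))`, for all `n' ≥ 2`, for all families `Z` in commutative rings with the stuffle
product and `Z(2, 1) = Z(3)`, for example for the `p`-adic multiple zeta values, for all `p`.

In the starting file `AllIndices` the first argument of every index is at least `n`. The proof writes a pattern with constant
letters in front as a combination of stuffle products of constant patterns and patterns with a growing first argument, and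
uses a measure of linear independence of `1, ζ(2), ζ(3)` of the starting library.
-/

set_option autoImplicit false

namespace Pool.Agent.Results.MP_03df5c_nt.ConstantArguments

/-- `trunc [s_1, ..., s_r] m` is the sum of `∏ k_i ^ (-s_i)` over `m > k_1 > ... > k_r ≥ 1` -/
noncomputable def trunc : List ℕ → ℕ → ℝ
  | [], _ => 1
  | s :: l, m => ∑ j ∈ Finset.Ico 1 m, trunc l j / (j : ℝ) ^ s

/-- the multiple zeta value `ζ(s_1, ..., s_r)`, `s_1` belongs to the largest variable -/
noncomputable def mzv : List ℕ → ℝ
  | [] => 1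
  | s :: l => ∑' k : ℕ, trunc l (k + 1) / ((k + 1 : ℕ) : ℝ) ^ s

/-- admissible indices: all entries are at least one, the first one is at least two; the empty index is admissible -/
def AdmissibleIndex (l : List ℕ) : Prop := (∀ a ∈ l, 1 ≤ a) ∧ ∀ a t, l = a :: t → 2 ≤ a

/-- the list of the indices in the stuffle (series) product of two indices -/
def stuffles : List ℕ → List ℕ → List (List ℕ)
  | [], l => [l]
  | i :: k, [] => [i :: k]
  | i :: k, j :: l => (stuffles k (j :: l)).map (i :: ·) ++ (stuffles (i :: k) l).map (j :: ·) ++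
      (stuffles k l).map ((i + j) :: ·)
termination_by k l => k.length + l.length

/-- `Z` has the stuffle product: `Z(∅) = 1` and `Z(k) Z(l) = ∑ Z(m)` over the indices `m` of the stuffle product of `k` and
`l`, for all admissible indices `k` and `l` -/
def HasStuffleProduct {A : Type} [CommRing A] (Z : List ℕ → A) : Prop :=
  Z [] = 1 ∧ ∀ k l : List ℕ, AdmissibleIndex k → AdmissibleIndex l → Z k * Z l = ((stuffles k l).map Z).sum

/-- admissible patterns: the letter `(0, 0)` does not occur, and a constant first letter is at least two -/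
def AdmissiblePattern (w : List (ℕ × ℕ)) : Prop :=
  (∀ x ∈ w, x ≠ (0, 0)) ∧ ∀ x l, w = x :: l → x.1 = 0 → 2 ≤ x.2

/-- the index with the arguments `a n + b` -/
def index (n : ℕ) (w : List (ℕ × ℕ)) : List ℕ := w.map fun x => x.1 * n + x.2

/-- the sum of the constant arguments in front of the first growing argument -/
def constantWeight : List (ℕ × ℕ) → ℕ
  | [] => 0
  | x :: l => if x.1 = 0 then x.2 + constantWeight l else 0

lemma trunc_eq : ∀ l m, trunc l m = Pool.Agent.TH507.WD.hr l m := by
  intro l
  induction l with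
  | nil => intro m; rw [trunc, Pool.Agent.TH507.WD.hr]
  | cons s l ih =>
    intro m
    rw [trunc, Pool.Agent.TH507.WD.hr]
    exact Finset.sum_congr rfl fun j _ => by rw [ih]

lemma mzv_eq : mzv = Pool.Agent.TH507.WD.mz := by
  funext l
  cases l with
  | nil => rw [mzv, Pool.Agent.TH507.WD.mz]
  | cons s l =>
    rw [mzv, Pool.Agent.TH507.WD.mz]
    exact tsum_congr fun k => by rw [trunc_eq]

lemma stuffles_eq : ∀ k l, stuffles k l = Pool.Agent.TH507.DS.stI k l := by
  intro k l
  induction k, l using Pool.Agent.TH507.DS.stI.induct with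
  | case1 l => rw [stuffles, Pool.Agent.TH507.DS.stI]
  | case2 i k => rw [stuffles, Pool.Agent.TH507.DS.stI]
  | case3 i k j l ih1 ih2 ih3 => rw [stuffles, Pool.Agent.TH507.DS.stI, ih1, ih2, ih3]

lemma stI_of {A : Type} [CommRing A] {Z : List ℕ → A} (h : HasStuffleProduct Z) : Pool.Agent.Q217.MZ.StI Z :=
  ⟨h.1, fun k l hk hl => by rw [h.2 k l hk hl, stuffles_eq]⟩

lemma adm_of {w : List (ℕ × ℕ)} (h : AdmissiblePattern w) : Pool.Agent.Q217.MZ.AdmW w := by
  refine ⟨fun x hx hx0 => ?_, h.2⟩
  have h1 := h.1 x hx
  by_contra hcon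
  exact h1 (Prod.ext hx0 (by simp only; omega))

lemma cw_eq (w : List (ℕ × ℕ)) : constantWeight w = (Pool.Agent.Q217.MZ.cp w).sum.2 := by
  induction w with
  | nil => rfl
  | cons x l ih =>
    rw [constantWeight]
    by_cases h : x.1 = 0
    · rw [if_pos h, Pool.Agent.Q217.MZ.cp_zero l h, List.sum_cons, Prod.snd_add, ih]
    · rw [if_neg h, Pool.Agent.Q217.MZ.cp_pos l h]
      rfl

/-- the real multiple zeta values have the stuffle product, and `ζ(2, 1) = ζ(3)` -/
lemma real_stuffle : Pool.Agent.Q217.MZ.StI mzv ∧ mzv [2, 1] = mzv [3] := by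
  rw [mzv_eq]
  refine ⟨⟨by rw [Pool.Agent.TH507.WD.mz], fun k l hk hl => ?_⟩, Pool.Agent.Q217.MZ.mz_21⟩
  have e : ∀ k : List ℕ, k = Pool.Agent.TH507.WG.ar 2 (k.map fun b => ((0 : ℕ), b)) := by
    intro k
    rw [Pool.Agent.TH507.WG.ar, List.map_map]
    conv_lhs => rw [← List.map_id k]
    refine List.map_congr_left fun b _ => ?_
    simp
  have ha : ∀ k : List ℕ, Pool.Agent.H447R2.MZ.Adm k →
      Pool.Agent.Q217.MZ.AdmW (k.map fun b => ((0 : ℕ), b)) := by
    intro k hk
    refine ⟨fun x hx _ => ?_, fun x l h _ => ?_⟩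
    · rw [List.mem_map] at hx
      obtain ⟨b, hb, rfl⟩ := hx
      exact hk.1 b hb
    · cases k with
      | nil => exact absurd h (by simp)
      | cons b k =>
        rw [List.map_cons] at h
        rw [← (List.cons.inj h).1]
        exact hk.2 b k rfl
  have h1 := Pool.Agent.Q217.MZ.mz_mulA (n := 2) le_rfl _ _ (ha k hk) (ha l hl)
  rw [← e k, ← e l] at h1
  rw [← h1, Pool.Agent.Q217.MZ.stSum]
  conv_rhs => rw [e k, e l, Pool.Agent.TH507.DS.stI_ar, List.map_map]
  rfl

/-- **Theorem.** Let `w_1, ..., w_k` be admissible patterns and `D ≥ 0`. There are `B, C > 1` and `n0` such that for all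
`n ≥ n0` and all integer polynomials `f` of degree at most `D` with coefficients of absolute value at most `C ^ n` whose
monomials have constant weight at most three: if `|f(ζ(w_1(n)), ..., ζ(w_k(n)))| ≤ B ^ (-n)`, then, for all `n' ≥ 2`,
`f(ζ(w_1(n')), ..., ζ(w_k(n'))) = 0`, and `f(Z(w_1(n')), ..., Z(w_k(n'))) = 0` for all commutative rings `A` and all
functions `Z` from the indices to `A` which have the stuffle product and satisfy `Z(2, 1) = Z(3)`. -/
theorem result {k : ℕ} (w : Fin k → List (ℕ × ℕ)) (hw : ∀ i, AdmissiblePattern (w i)) (D : ℕ) :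
    ∃ B C : ℝ, 1 < B ∧ 1 < C ∧ ∃ n0 : ℕ, ∀ n : ℕ, n0 ≤ n → ∀ f : MvPolynomial (Fin k) ℤ, f.totalDegree ≤ D →
      (∀ m, |((f.coeff m : ℤ) : ℝ)| ≤ C ^ n) → (∀ m ∈ f.support, ∑ i, m i * constantWeight (w i) ≤ 3) →
      |MvPolynomial.aeval (fun i => mzv (index n (w i))) f| ≤ (B ^ n)⁻¹ →
      ∀ n' : ℕ, 2 ≤ n' → MvPolynomial.aeval (fun i => mzv (index n' (w i))) f = 0 ∧
        ∀ (A : Type) [CommRing A] (Z : List ℕ → A), HasStuffleProduct Z → Z [2, 1] = Z [3] →
          MvPolynomial.aeval (fun i => Z (index n' (w i))) f = 0 := by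
  obtain ⟨B, C, hB, hC, n0, h⟩ := Pool.Agent.Q217.MZ.poly_three D w fun i => adm_of (hw i)
  refine ⟨B, C, hB, hC, n0, fun n hn f hf hc hs hsmall n' hn' => ?_⟩
  have h1 := h n hn f hf hc (by
    intro s hs'
    have := hs s hs'
    simp only [cw_eq] at this
    exact this) (by
    rw [← mzv_eq]
    exact hsmall)
  exact ⟨h1 ℝ mzv real_stuffle.1 real_stuffle.2 n' hn', fun A _ Z hZ h21 => h1 A Z (stI_of hZ) h21 n' hn'⟩

end Pool.Agent.Results.MP_03df5c_nt.ConstantArguments
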