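import Pool.Agent.Q263.ZO.Pairs

/-!
# Real and `p`-adic multiple zeta values: a dichotomy for every prime `p`

Let `z s = ζ_p(s)` be the `p`-adic multiple zeta values, of which only the stuffle product (Besser and
Furusho) and `ζ_p(2) = 0` are used (`Stuffle`). For `N ≥ 0` let `R N` and `Q z N` be the spans of the
real and of the `p`-adic multiple zeta values of weight at most `N`, and `B z N` the span of the pairs
`(ζ(s), ζ_p(s))` in `ℝ × ℚ_p`. `Holds z` is the statement of Q1 for `p`. Theorem: exactly one of the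
following holds.

(A) All polynomial relations between real multiple zeta values hold for the `p`-adic ones. Then
    `dim B N = dim R N` and `dim Q (N + 2) ≤ dim R (N + 2) - dim R N` for all `N`.

(B) There are `n` and a nonzero `y` in `Q z n` such that for all `N`, all `x ∈ R N` and all
    `y' ∈ Q z N` the pair `(π² x, y y')` is in `B z (max 2 n + N)`: up to the fixed factors `π²` and
    `y` every real and every `p`-adic multiple zeta value occur together, for one and the same rational
    combination of indices. Then `dim B (n + N) ≥ dim R (n + N) + dim Q N` for all `N`.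

Consequently Q1 holds for `p` if and only if `(dim B N - dim R N) / dim Q N` tends to `0`.
-/

set_option autoImplicit false

open Module Filter Topology

namespace Pool.Agent.Results.MP_03df5c_nt.Dichotomy

open Pool.Agent.Q263.ZO.Pairs Pool.Agent.H447R2.MZ

theorem result (p : ℕ) [Fact p.Prime] (z : List ℕ → ℚ_[p]) (hz : Stuffle z) :
    (Holds z ∧ (∀ N, finrank ℚ (B z N) = finrank ℚ (R N)) ∧
        (∀ N, finrank ℚ (Q z (2 + N)) + finrank ℚ (R N) ≤ finrank ℚ (R (2 + N))) ∨
      ¬ Holds z ∧ ∃ (n : ℕ) (y : ℚ_[p]), y ≠ 0 ∧ y ∈ Q z n ∧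
        (∀ N, ∀ x ∈ R N, ∀ y' ∈ Q z N, ((Real.pi ^ 2 * x, y * y') : ℝ × ℚ_[p]) ∈ B z (max 2 n + N)) ∧
        (∀ N, finrank ℚ (R (n + N)) + finrank ℚ (Q z N) ≤ finrank ℚ (B z (n + N)))) ∧
    (∀ N, finrank ℚ (Q z (2 + N)) + finrank ℚ (R N) ≤ finrank ℚ (B z (2 + N))) ∧
    (Holds z ↔ Tendsto (fun N => ((finrank ℚ (B z N) : ℝ) - finrank ℚ (R N)) / finrank ℚ (Q z N))
      atTop (𝓝 0)) := by
  have hex : ¬ Holds z → ∃ (n : ℕ) (y : ℚ_[p]), y ≠ 0 ∧ ((0, y) : ℝ × ℚ_[p]) ∈ B z n := by
    intro h
    rw [holds_iff hz] at h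
    push Not at h
    obtain ⟨n, y, h1, h2⟩ := h
    exact ⟨n, y, h2, h1⟩
  refine ⟨?_, dim_padic hz, ?_⟩
  · by_cases h : Holds z
    · left
      refine ⟨h, dim_eq hz h, fun N => ?_⟩
      have h1 := dim_padic hz N
      rwa [dim_eq hz h] at h1
    · right
      obtain ⟨n, y, hy0, hy⟩ := hex h
      refine ⟨h, n, y, hy0, ?_, fun N x hx y' hy' => all_pairs hz hy N x hx y' hy',
        dim_real hz hy hy0⟩
      rw [← map_snd]
      exact ⟨_, hy, rfl⟩
  · constructor
    · intro h
      have h1 : ∀ N, ((finrank ℚ (B z N) : ℝ) - finrank ℚ (R N)) / finrank ℚ (Q z N) = 0 := by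
        intro N
        rw [dim_eq hz h, sub_self, zero_div]
      simp only [h1]
      exact tendsto_const_nhds
    · intro ht
      by_contra h
      obtain ⟨n, y, hy0, hy⟩ := hex h
      exact not_tendsto hz hy hy0 ht

end Pool.Agent.Results.MP_03df5c_nt.Dichotomy
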