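import Mathlib
import Pool.Agent.Q217.MZ.PrefixFin

/-!
# MP_03df5c_nt: relations of bounded shape reduce to relations of bounded weight

A pattern is a list of letters `(a, b)`; its index at `n` has the arguments `a n + b`. The constant weight of a pattern is
the sum of the constant arguments in front of the first growing argument. Consider integer polynomials `f` of bounded degree
and bounded height whose monomials, at admissible patterns `w_1, ..., w_k`, have constant weight at most `W`, and let `n` be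
large.

1. If `f` vanishes at the real multiple zeta values of the indices `w_i(n)`, then `f` vanishes at `Z(w_i(n'))`, `n' ≥ 2`, for
all families `Z` in commutative rings with the stuffle product which satisfy all linear relations of weight at most `W`
between real multiple zeta values. So the question for relations of bounded shape and height reduces to the question for
linear relations of bounded weight.

2. If `f` is isobaric and `W = 4`, the conclusion holds for all families with the stuffle product and `Z(2,1) = Z(3)`,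
`4 Z(3,1) = Z(4)`, `4 Z(2,2) = 3 Z(4)`, `Z(2,1,1) = Z(4)`, for example for the `p`-adic multiple zeta values.
-/

set_option autoImplicit false

namespace Pool.Agent.Results.MP_03df5c_nt.ReductionToBoundedWeight

/-- `trunc [s_1, ..., s_r] m` is the sum of `∏ k_i ^ (-s_i)` over `m > k_1 > ... > k_r ≥ 1` -/
noncomputable def trunc : List ℕ → ℕ → ℝ
  | [], _ => 1
  | s :: l, m => ∑ j ∈ Finset.Ico 1 m, trunc l j / (j : ℝ) ^ s

/-- the multiple zeta value `ζ(s_1, ..., s_r)`, `s_1` belongs to the largest variable -/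
noncomputable def mzv : List ℕ → ℝ
  | [] => 1
  | s :: l => ∑' k : ℕ, trunc l (k + 1) / ((k + 1 : ℕ) : ℝ) ^ s

/-- admissible indices: all entries are at least one, the first one is at least two; the empty index is admissible -/
def AdmissibleIndex (l : List ℕ) : Prop := (∀ a ∈ l, 1 ≤ a) ∧ ∀ a t, l = a :: t → 2 ≤ a

/-- the list of the indices in the stuffle (series) product of two indices -/
def stuffles : List ℕ → List ℕ → List (List ℕ)
  | [], l => [l]
  | i :: k, [] => [i :: k]
  | i :: k, j :: l => (stuffles k (j :: l)).map (i :: ·) ++ (stuffles (i :: k) l).map (j :: ·) ++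
      (stuffles k l).map ((i + j) :: ·)
termination_by k l => k.length + l.length

/-- `Z` has the stuffle product: `Z(∅) = 1` and `Z(k) Z(l) = ∑ Z(m)` over the indices `m` of the stuffle product of `k` and
`l`, for all admissible indices `k` and `l` -/
def HasStuffleProduct {A : Type} [CommRing A] (Z : List ℕ → A) : Prop :=
  Z [] = 1 ∧ ∀ k l : List ℕ, AdmissibleIndex k → AdmissibleIndex l → Z k * Z l = ((stuffles k l).map Z).sum

/-- `Z` satisfies all the integral linear relations between real multiple zeta values of weight at most `W` -/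
def SatisfiesRelations (W : ℕ) {A : Type} [CommRing A] (Z : List ℕ → A) : Prop :=
  ∀ (T : Finset (List ℕ)) (a : List ℕ → ℤ), (∀ l ∈ T, AdmissibleIndex l ∧ l.sum ≤ W) →
    ∑ l ∈ T, (a l : ℝ) * mzv l = 0 → ∑ l ∈ T, (a l : A) * Z l = 0

/-- admissible patterns: the letter `(0, 0)` does not occur, and a constant first letter is at least two -/
def AdmissiblePattern (w : List (ℕ × ℕ)) : Prop :=
  (∀ x ∈ w, x ≠ (0, 0)) ∧ ∀ x l, w = x :: l → x.1 = 0 → 2 ≤ x.2

/-- the index with the arguments `a n + b` -/
def index (n : ℕ) (w : List (ℕ × ℕ)) : List ℕ := w.map fun x => x.1 * n + x.2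

/-- the sum of the constant arguments in front of the first growing argument -/
def constantWeight : List (ℕ × ℕ) → ℕ
  | [] => 0
  | x :: l => if x.1 = 0 then x.2 + constantWeight l else 0

lemma trunc_eq : ∀ l m, trunc l m = Pool.Agent.TH507.WD.hr l m := by
  intro l
  induction l with
  | nil => intro m; rw [trunc, Pool.Agent.TH507.WD.hr]
  | cons s l ih =>
    intro m
    rw [trunc, Pool.Agent.TH507.WD.hr]
    exact Finset.sum_congr rfl fun j _ => by rw [ih]

lemma mzv_eq : mzv = Pool.Agent.TH507.WD.mz := by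
  funext l
  cases l with
  | nil => rw [mzv, Pool.Agent.TH507.WD.mz]
  | cons s l =>
    rw [mzv, Pool.Agent.TH507.WD.mz]
    exact tsum_congr fun k => by rw [trunc_eq]

lemma stuffles_eq : ∀ k l, stuffles k l = Pool.Agent.TH507.DS.stI k l := by
  intro k l
  induction k, l using Pool.Agent.TH507.DS.stI.induct with
  | case1 l => rw [stuffles, Pool.Agent.TH507.DS.stI]
  | case2 i k => rw [stuffles, Pool.Agent.TH507.DS.stI]
  | case3 i k j l ih1 ih2 ih3 => rw [stuffles, Pool.Agent.TH507.DS.stI, ih1, ih2, ih3]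

lemma stI_of {A : Type} [CommRing A] {Z : List ℕ → A} (h : HasStuffleProduct Z) : Pool.Agent.Q217.MZ.StI Z :=
  ⟨h.1, fun k l hk hl => by rw [h.2 k l hk hl, stuffles_eq]⟩

lemma adm_of {w : List (ℕ × ℕ)} (h : AdmissiblePattern w) : Pool.Agent.Q217.MZ.AdmW w := by
  refine ⟨fun x hx hx0 => ?_, h.2⟩
  have h1 := h.1 x hx
  by_contra hcon
  exact h1 (Prod.ext hx0 (by simp only; omega))

lemma cw_eq (w : List (ℕ × ℕ)) : constantWeight w = (Pool.Agent.Q217.MZ.cp w).sum.2 := by
  induction w with
  | nil => rfl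
  | cons x l ih =>
    rw [constantWeight]
    by_cases h : x.1 = 0
    · rw [if_pos h, Pool.Agent.Q217.MZ.cp_zero l h, List.sum_cons, Prod.snd_add, ih]
    · rw [if_neg h, Pool.Agent.Q217.MZ.cp_pos l h]
      rfl

/-- **Theorem.** Let `w_1, ..., w_k` be admissible patterns, `D, W ≥ 0`.

1. There is `N` such that for all `H` and all `n ≥ n0(H)`: if `f` is an integer polynomial of degree at most `D` and height
at most `H` whose monomials have constant weight at most `W`, and `|f(ζ(w_1(n)), ..., ζ(w_k(n)))| ≤ N ^ (-n)`, then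
`f(Z(w_1(n')), ..., Z(w_k(n'))) = 0` for all `n' ≥ 2`, all commutative rings `A` and all `Z` with values in `A` which have
the stuffle product and satisfy the relations of weight at most `W` between real multiple zeta values.

2. Let `S = (S_1, S_2)`. The same holds for `W = 4` and the isobaric polynomials `f` of weight `S_1 n + S_2` for all `Z` with
values in a `ℚ`-algebra which have the stuffle product and satisfy `Z(2,1) = Z(3)`, `4 Z(3,1) = Z(4)`, `4 Z(2,2) = 3 Z(4)` and
`Z(2,1,1) = Z(4)`. -/
theorem result {k : ℕ} (w : Fin k → List (ℕ × ℕ)) (hw : ∀ i, AdmissiblePattern (w i)) (D : ℕ) :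
    (∀ W : ℕ, ∃ N : ℕ, 1 ≤ N ∧ ∀ H : ℕ, ∃ n0 : ℕ, ∀ n : ℕ, n0 ≤ n → ∀ f : MvPolynomial (Fin k) ℤ, f.totalDegree ≤ D →
      (∀ m, |f.coeff m| ≤ H) → (∀ m ∈ f.support, ∑ i, m i * constantWeight (w i) ≤ W) →
      |MvPolynomial.aeval (fun i => mzv (index n (w i))) f| ≤ ((N : ℝ) ^ n)⁻¹ →
      ∀ n' : ℕ, 2 ≤ n' → ∀ (A : Type) [CommRing A] (Z : List ℕ → A), HasStuffleProduct Z → SatisfiesRelations W Z →
        MvPolynomial.aeval (fun i => Z (index n' (w i))) f = 0) ∧
    (∀ S : ℕ × ℕ, ∃ N : ℕ, 1 ≤ N ∧ ∀ H : ℕ, ∃ n0 : ℕ, ∀ n : ℕ, n0 ≤ n → ∀ f : MvPolynomial (Fin k) ℤ,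
      f.totalDegree ≤ D → (∀ m, |f.coeff m| ≤ H) →
      (∀ m ∈ f.support, ∑ i, m i * constantWeight (w i) ≤ 4 ∧ ∑ i, m i • (w i).sum = S) →
      |MvPolynomial.aeval (fun i => mzv (index n (w i))) f| ≤ ((N : ℝ) ^ n)⁻¹ →
      ∀ n' : ℕ, 2 ≤ n' → ∀ (A : Type) [CommRing A] [Algebra ℚ A] (Z : List ℕ → A), HasStuffleProduct Z →
        Z [2, 1] = Z [3] → 4 * Z [3, 1] = Z [4] → 4 * Z [2, 2] = 3 * Z [4] → Z [2, 1, 1] = Z [4] →
        MvPolynomial.aeval (fun i => Z (index n' (w i))) f = 0) := by
  refine ⟨fun W => ?_, fun S => ?_⟩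
  · obtain ⟨N, hN, h⟩ := Pool.Agent.Q217.MZ.poly_reduction W D w fun i => adm_of (hw i)
    refine ⟨N, hN, fun H => ?_⟩
    obtain ⟨n0, h⟩ := h H
    refine ⟨n0, fun n hn f hf hc hs hsmall n' hn' A _ Z hZ hrel => ?_⟩
    refine h n hn f hf hc (by
      intro s hs'
      have := hs s hs'
      simp only [cw_eq] at this
      exact this) (by
      rw [← mzv_eq]
      exact hsmall) A Z (stI_of hZ) (fun T a hT h0 => hrel T a hT (by rw [mzv_eq]; exact h0)) n' hn'
  · obtain ⟨N, hN, h⟩ := Pool.Agent.Q217.MZ.poly_four S D w fun i => adm_of (hw i)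
    refine ⟨N, hN, fun H => ?_⟩
    obtain ⟨n0, h⟩ := h H
    refine ⟨n0, fun n hn f hf hc hs hsmall n' hn' A _ _ Z hZ h21 h31 h22 h211 => ?_⟩
    have h1 := h n hn f hf hc (by
      intro s hs'
      have := hs s hs'
      simp only [cw_eq] at this
      exact this) (by
      rw [← mzv_eq]
      exact hsmall) A Z (stI_of hZ) h21 h31 h22 h211 n' hn'
    have h2 : (algebraMap ℚ A (1 / 4)) * (4 * MvPolynomial.aeval (fun i => Z (index n' (w i))) f) = 0 := by
      have h3 : (4 : A) * MvPolynomial.aeval (fun i => Z (index n' (w i))) f = 0 := h1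
      rw [h3, mul_zero]
    have h4 : (algebraMap ℚ A (1 / 4)) * 4 = 1 := by
      rw [← map_ofNat (algebraMap ℚ A) 4, ← map_mul]
      norm_num
    rwa [← mul_assoc, h4, one_mul] at h2

end Pool.Agent.Results.MP_03df5c_nt.ReductionToBoundedWeight
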