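import Pool.Agent.Q127.HB.Stuffle

/-!
# Real relations which fail p-adically form an ideal: dimensions and sparse sets of weights

Indices are lists of positive integers with first entry at least two, or empty (`Adm`); `val s` is the real multiple zeta value
(`1` for the empty index), `st s t` the list of the indices in the stuffle product of `s` and `t`. Let `A` be an integral domain
which contains `ℚ` and `Z` a function from the indices to `A` with the stuffle product (`HasStuffle`: `Z [] = 1` and
`Z s Z t = ∑ Z u` over the indices of the stuffle product), for instance `A = ℚ_p` and the `p`-adic multiple zeta values.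

For a set `P` of weights `Sp Z P` is the `ℚ`-span of the `Z s` with weight in `P`; `Transfer Z P` says that every `ℚ`-linear
relation with weights in `P` between the real values holds for `Z`; `Viol Z P` is the space of the values at `Z` of these real
relations, `pair Z s = (val s, Z s)`, and `Algebraic Z` is the assertion of Q1: every polynomial relation over `ℚ` between the
real values holds for `Z`.

Theorem (unconditional).

1. `Algebraic Z` is equivalent to `Transfer Z` for the set of all weights (linear relations suffice).
2. If one relation with weights in `P` does not hold for `Z`, then `dim Viol Z (P + Q) ≥ dim Sp Z Q` for all sets `Q` of weights,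
   and the pairs `(val s, Z s)` with weight in `P + Q` span a space of dimension at least
   `dim Sp val (P + Q) + dim Sp Z Q`. For instance: if Q1 fails for `p` by a relation of weights `≤ w`, then the pairs of weight
   `≤ w + N` span at least `dim (real, weight ≤ w + N) + dim (p-adic, weight ≤ N)` dimensions; if all relations hold, the first
   summand is the dimension.
3. If all real relations of weight `n + m` hold for `Z` and `Z s ≠ 0` for some `s` of weight `m`, then all real relations of
   weight `n` hold for `Z`.
4. Suppose that `Z s ≠ 0` for some `s` in each of two coprime weights `> 1`. All homogeneous linear relations hold for `Z` if and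
   only if this is true in infinitely many weights.
5. With the same hypothesis, Q1 holds for `Z` if and only if for every `w` there are arbitrarily large `n` such that all linear
   relations with weights in `[n, n + w]` hold for `Z`.

For the `p`-adic multiple zeta values the hypothesis in 4 and 5 is satisfied: `ζ_p(k) ≠ 0` for odd `k > 1`, `k ≡ 1` modulo `p - 1`,
as the `p`-adic zeta function of Kubota and Leopoldt has a simple pole at `1`, and so `(s - 1) ζ_p(s)` is a unit times `1 / p`
there.
-/

set_option autoImplicit false

open Filter Pointwise

namespace Pool.Agent.Results.MP_03df5c_nt.RelationIdeal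

open Pool.Agent.Q127.SF Pool.Agent.H447R2.MZ

theorem result (A : Type) [CommRing A] [IsDomain A] [Algebra ℚ A] (Z : List ℕ → A) (hZ : HasStuffle Z) :
    -- 1
    (Algebraic Z ↔ Transfer Z Set.univ) ∧
    -- 2
    (∀ P Q : Set ℕ, ¬ Transfer Z P →
      Module.rank ℚ (Sp Z Q) ≤ Module.rank ℚ (Viol Z (P + Q)) ∧
      Module.rank ℚ (Sp val (P + Q)) + Module.rank ℚ (Sp Z Q) ≤ Module.rank ℚ (Sp (pair Z) (P + Q))) ∧
    -- 3
    (∀ m n, (∃ s, Adm s ∧ s.sum = m ∧ Z s ≠ 0) → Transfer Z {n + m} → Transfer Z {n}) ∧
    ((∃ a b, 1 < a ∧ 1 < b ∧ Nat.Coprime a b ∧ (∃ s, Adm s ∧ s.sum = a ∧ Z s ≠ 0) ∧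
        ∃ s, Adm s ∧ s.sum = b ∧ Z s ≠ 0) →
      -- 4
      ((∀ n, Transfer Z {n}) ↔ ∃ᶠ n in atTop, Transfer Z {n}) ∧
      -- 5
      (Algebraic Z ↔ ∀ w : ℕ, ∃ᶠ n in atTop, Transfer Z (Set.Icc n (n + w)))) := by
  refine ⟨algebraic_iff hZ, fun P Q h => ⟨rank_le hZ h Q, ?_⟩, ?_, fun h => ?_⟩
  · rw [rank_pair]
    gcongr
    exact rank_le hZ h Q
  · intro m n hm h
    have h1 : Transfer Z ({n} + {m}) := by rwa [Set.singleton_add_singleton]
    exact h1.down hZ (ne_bot_of hm)
  · have hS := eventually_ne hZ h
    exact ⟨homogeneous hZ hS, iff_windows hZ hS⟩

end Pool.Agent.Results.MP_03df5c_nt.RelationIdeal
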